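import Pool.Agent.SOB.Defs

/-! Project SOB (majority closed constraints and 2-SAT), module BP (size 3): Baker-Pixley: a relation closed under majority is determined by its projections to two coordinates.
-/

set_option autoImplicit false

namespace Pool.Agent.SOB

open Pool.Agent.SOC Pool.Agent.SOS FP

/-- PROOF. (maj3 a b c).getD i false = maj (a_i) (b_i) (c_i) for lists of the same length (List.getElem_zipWith). -/
theorem maj3_get {a b c : List Bool} {k i : ℕ} (ha : a.length = k) (hb : b.length = k) (hc : c.length = k) (hi : i < k) :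
    (maj3 a b c).length = k ∧ (maj3 a b c).getD i false = maj (a.getD i false) (b.getD i false) (c.getD i false) := by
  have hl : (maj3 a b c).length = k := by
    simp [maj3, ha, hb, hc]
  refine ⟨hl, ?_⟩
  have h1 : i < (maj3 a b c).length := by omega
  have h2 : i < a.length := by omega
  have h3 : i < b.length := by omega
  have h4 : i < c.length := by omega
  rw [List.getD_eq_getElem _ _ h1, List.getD_eq_getElem _ _ h2, List.getD_eq_getElem _ _ h3, List.getD_eq_getElem _ _ h4]
  simp [maj3]

theorem bp_maj1 (x y : Bool) : maj x x y = x := by cases x <;> cases y <;> rfl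

theorem bp_maj2 (x y : Bool) : maj x y x = x := by cases x <;> cases y <;> rfl

theorem bp_maj3 (x y : Bool) : maj y x x = x := by cases x <;> cases y <;> rfl

theorem bp_ind {R : List (List Bool)} {k : ℕ} (hlen : ∀ r ∈ R, r.length = k)
    (hmaj : ∀ a ∈ R, ∀ b ∈ R, ∀ d ∈ R, maj3 a b d ∈ R) (hne : R ≠ []) {t : List Bool}
    (h : ∀ i < k, ∀ j < k, ∃ r ∈ R, r.getD i false = t.getD i false ∧ r.getD j false = t.getD j false) :
    ∀ (m : ℕ) (I : Finset ℕ), I.card = m → (∀ i ∈ I, i < k) → ∃ r ∈ R, ∀ i ∈ I, r.getD i false = t.getD i false := by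
  intro m
  induction m using Nat.strong_induction_on with
  | _ m ih =>
    intro I hI hk
    rcases Nat.lt_or_ge I.card 3 with h3 | h3
    · rcases Nat.eq_zero_or_pos I.card with h0 | h0
      · rw [Finset.card_eq_zero] at h0
        obtain ⟨r, hr⟩ := List.exists_mem_of_ne_nil R hne
        exact ⟨r, hr, by simp [h0]⟩
      · rcases Nat.lt_or_ge I.card 2 with h2 | h2
        · have h1 : I.card = 1 := by omega
          obtain ⟨x, hx⟩ := Finset.card_eq_one.1 h1
          have hxk := hk x (by simp [hx])
          obtain ⟨r, hr, hr1, _⟩ := h x hxk x hxk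
          exact ⟨r, hr, by simpa [hx] using hr1⟩
        · have h1 : I.card = 2 := by omega
          obtain ⟨x, y, _, hxy⟩ := Finset.card_eq_two.1 h1
          have hxk := hk x (by simp [hxy])
          have hyk := hk y (by simp [hxy])
          obtain ⟨r, hr, hr1, hr2⟩ := h x hxk y hyk
          exact ⟨r, hr, by simpa [hxy] using And.intro hr1 hr2⟩
    · obtain ⟨x, y, z, hx, hy, hz, hxy, hxz, hyz⟩ := Finset.two_lt_card_iff.1 h3
      have key : ∀ w ∈ I, ∃ r ∈ R, ∀ i ∈ I.erase w, r.getD i false = t.getD i false := by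
        intro w hw
        refine ih (I.erase w).card ?_ (I.erase w) rfl (fun i hi => hk i (Finset.mem_of_mem_erase hi))
        rw [Finset.card_erase_of_mem hw]
        omega
      obtain ⟨r1, hr1, e1⟩ := key x hx
      obtain ⟨r2, hr2, e2⟩ := key y hy
      obtain ⟨r3, hr3, e3⟩ := key z hz
      refine ⟨maj3 r1 r2 r3, hmaj _ hr1 _ hr2 _ hr3, ?_⟩
      intro i hi
      rw [(maj3_get (hlen _ hr1) (hlen _ hr2) (hlen _ hr3) (hk i hi)).2]
      by_cases h1 : i = x
      · subst h1
        rw [e2 i (Finset.mem_erase.2 ⟨hxy, hi⟩), e3 i (Finset.mem_erase.2 ⟨hxz, hi⟩), bp_maj3]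
      · by_cases h2 : i = y
        · subst h2
          rw [e1 i (Finset.mem_erase.2 ⟨h1, hi⟩), e3 i (Finset.mem_erase.2 ⟨hyz, hi⟩), bp_maj2]
        · rw [e1 i (Finset.mem_erase.2 ⟨h1, hi⟩), e2 i (Finset.mem_erase.2 ⟨h2, hi⟩), bp_maj1]

/-- PROOF. For every finite set I of positions < k there is r ∈ R which agrees with t on I: induction on the number of elements of I (Finset.strongInduction / card). card ≤ 1: h with i = j (I empty: hne). card = 2: h. card ≥ 3: three different members i₁, i₂, i₃ of I; r_a ∈ R agrees with t on I minus i_a;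
maj3 r₁ r₂ r₃ agrees with t on I: at a position j ∈ I at least two of the three agree with t (j is different from at least two of the i_a). For I = all positions: r = t (List.ext_getElem, equal lengths). -/
theorem baker_pixley {R : List (List Bool)} {k : ℕ} (hlen : ∀ r ∈ R, r.length = k)
    (hmaj : ∀ a ∈ R, ∀ b ∈ R, ∀ d ∈ R, maj3 a b d ∈ R) (hne : R ≠ []) {t : List Bool} (ht : t.length = k)
    (h : ∀ i < k, ∀ j < k, ∃ r ∈ R, r.getD i false = t.getD i false ∧ r.getD j false = t.getD j false) : t ∈ R := by
  obtain ⟨r, hr, e⟩ := bp_ind hlen hmaj hne h _ (Finset.range k) rfl (fun i hi => Finset.mem_range.1 hi)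
  have hrt : r = t := by
    apply List.ext_getElem
    · rw [hlen r hr, ht]
    · intro i h1 h2
      have h3 := e i (Finset.mem_range.2 (by rw [hlen r hr] at h1; exact h1))
      rw [List.getD_eq_getElem _ _ h1, List.getD_eq_getElem _ _ h2] at h3
      exact h3
  rw [← hrt]
  exact hr

theorem bp_litVal (f : ℕ → Bool) (x : ℕ) (u : Bool) : litVal f (lit x u) = true ↔ f x = u := by
  cases u
  · have h1 : (2 * x + 1) % 2 = 1 := by omega
    have h2 : (2 * x + 1) / 2 = x := by omega
    simp [lit, litVal, h1, h2]
  · have h1 : (2 * x) % 2 = 0 := by omega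
    have h2 : (2 * x) / 2 = x := by omega
    simp [lit, litVal]

theorem bp_mem_cls {c : Con} (hne : c.2 ≠ []) (l : ℕ × ℕ) : l ∈ cls c ↔ ∃ i < c.1.length, ∃ j < c.1.length,
    ∃ u : Bool × Bool, (∀ r ∈ c.2, ¬ (r.getD i false = u.1 ∧ r.getD j false = u.2)) ∧
      l = (lit (c.1.getD i 0) (!u.1), lit (c.1.getD j 0) (!u.2)) := by
  have he : c.2.isEmpty = false := by
    rw [List.isEmpty_eq_false_iff]
    exact hne
  unfold cls
  rw [he]
  simp only [Bool.false_eq_true, if_false, List.mem_flatMap, List.mem_range]
  constructor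
  · rintro ⟨i, hi, j, hj, u, _, hl⟩
    refine ⟨i, hi, j, hj, u, ?_⟩
    by_cases hc : (c.2.any (fun r => decide (r.getD i false = u.1) && decide (r.getD j false = u.2))) = true
    · rw [if_pos hc] at hl
      simp at hl
    · rw [if_neg hc] at hl
      rw [List.mem_singleton] at hl
      refine ⟨?_, hl⟩
      intro r hr hru
      apply hc
      rw [List.any_eq_true]
      exact ⟨r, hr, by rw [Bool.and_eq_true, decide_eq_true_eq, decide_eq_true_eq]; exact hru⟩
  · rintro ⟨i, hi, j, hj, u, hu, hl⟩
    refine ⟨i, hi, j, hj, u, ?_, ?_⟩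
    · rcases u with ⟨u1, u2⟩
      cases u1 <;> cases u2 <;> simp
    · have hc : ¬ (c.2.any (fun r => decide (r.getD i false = u.1) && decide (r.getD j false = u.2))) = true := by
        rw [List.any_eq_true]
        rintro ⟨r, hr, hru⟩
        rw [Bool.and_eq_true, decide_eq_true_eq, decide_eq_true_eq] at hru
        exact hu r hr hru
      rw [if_neg hc, List.mem_singleton]
      exact hl

theorem bp_getD_map (f : ℕ → Bool) (L : List ℕ) {i : ℕ} (hi : i < L.length) :
    (L.map f).getD i false = f (L.getD i 0) := by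
  rw [List.getD_eq_getElem _ _ (by rw [List.length_map]; exact hi), List.getD_eq_getElem _ _ hi, List.getElem_map]

/-- PROOF. c.2 = []: no assignment satisfies c, and (0, 0), (1, 1) are contradictory (litVal f 0, litVal f 1 = !(litVal f 0)). Otherwise: (→) a clause comes from i, j < length, (u₁, u₂) such that no allowed tuple has these values; c.1.map f is allowed, so (f x_i, f x_j) ≠ (u₁, u₂), one of the literals lit x_i (!u₁), lit x_j (!u₂) is true (litVal f (lit x u) = true iff f x = u).
(←) baker_pixley for t = c.1.map f: for i, j < length, if no allowed tuple has the values (f x_i, f x_j) then the clause (lit x_i (!(f x_i)), lit x_j (!(f x_j))) is in cls c: contradiction. -/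
theorem holds_iff {c : Con} (hc : MajC c) {f : ℕ → Bool} : Holds f c ↔ ∀ l ∈ cls c, litVal f l.1 = true ∨ litVal f l.2 = true := by
  by_cases hne : c.2 = []
  · have hcl : cls c = [(0, 0), (1, 1)] := by
      simp [cls, hne]
    unfold Holds
    rw [hcl, hne]
    simp [litVal]
  · constructor
    · intro h l hl
      obtain ⟨i, hi, j, hj, u, hu, rfl⟩ := (bp_mem_cls hne l).1 hl
      have h1 := hu _ h
      rw [bp_getD_map f _ hi, bp_getD_map f _ hj] at h1
      rw [bp_litVal, bp_litVal]
      rcases u with ⟨u1, u2⟩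
      simp only at h1 ⊢
      revert h1
      cases f (c.1.getD i 0) <;> cases f (c.1.getD j 0) <;> cases u1 <;> cases u2 <;> simp
    · intro h
      unfold Holds
      refine baker_pixley (k := c.1.length) hc.len hc.maj hne (by rw [List.length_map]) ?_
      intro i hi j hj
      by_contra hno
      push Not at hno
      have h2 : (lit (c.1.getD i 0) (!(f (c.1.getD i 0))), lit (c.1.getD j 0) (!(f (c.1.getD j 0)))) ∈ cls c := by
        rw [bp_mem_cls hne]
        refine ⟨i, hi, j, hj, (f (c.1.getD i 0), f (c.1.getD j 0)), ?_, rfl⟩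
        rintro r hr ⟨h3, h4⟩
        refine hno r hr ?_ ?_
        · rw [bp_getD_map f _ hi]
          exact h3
        · rw [bp_getD_map f _ hj]
          exact h4
      have h5 := h _ h2
      rw [bp_litVal, bp_litVal] at h5
      rcases h5 with h5 | h5
      · cases hf : f (c.1.getD i 0) <;> simp [hf] at h5
      · cases hf : f (c.1.getD j 0) <;> simp [hf] at h5

/-- PROOF: unfold cls; lit x u < 2 * n if x < n. For c.2 = []: 0 < n. -/
theorem cls_lt {c : Con} {n : ℕ} (hn : 0 < n) (hc : ∀ x ∈ c.1, x < n) : ∀ l ∈ cls c, l.1 < 2 * n ∧ l.2 < 2 * n := by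
  have hlit : ∀ x u, x < n → lit x u < 2 * n := by
    intro x u hx
    cases u
    · simp only [lit, Bool.false_eq_true, if_false]
      omega
    · simp only [lit, if_true]
      omega
  have hget : ∀ i < c.1.length, c.1.getD i 0 < n := by
    intro i hi
    rw [List.getD_eq_getElem _ _ hi]
    exact hc _ (List.getElem_mem hi)
  by_cases hne : c.2 = []
  · have hcl : cls c = [(0, 0), (1, 1)] := by
      simp [cls, hne]
    rw [hcl]
    intro l hl
    simp only [List.mem_cons, List.not_mem_nil, or_false] at hl
    rcases hl with rfl | rfl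
    · constructor <;> simp only <;> omega
    · constructor <;> simp only <;> omega
  · intro l hl
    obtain ⟨i, hi, j, hj, u, _, rfl⟩ := (bp_mem_cls hne l).1 hl
    exact ⟨hlit _ _ (hget i hi), hlit _ _ (hget j hj)⟩

end Pool.Agent.SOB
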