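import Pool.Agent.SOS.TwoSat
import Pool.Agent.SOC.AlgoPoly

/-! Project SOB (majority closed constraints and 2-SAT), module Defs (size 0): definitions. A constraint is a pair (scope, list of the allowed tuples).
-/

set_option autoImplicit false

namespace Pool.Agent.SOB

open Pool.Agent.SOC Pool.Agent.SOS FP

/-- constraints: scope, allowed tuples -/
abbrev Con := List ℕ × List (List Bool)

/-- the assignment satisfies the constraint -/
def Holds (f : ℕ → Bool) (c : Con) : Prop := c.1.map f ∈ c.2

/-- majority -/
def maj (a b c : Bool) : Bool := (a && b) || (a && c) || (b && c)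

/-- majority of tuples -/
def maj3 (a b c : List Bool) : List Bool := List.zipWith (fun x p => maj x p.1 p.2) a (b.zip c)

/-- the tuples have the right length and are closed under majority -/
structure MajC (c : Con) : Prop where
  len : ∀ r ∈ c.2, r.length = c.1.length
  maj : ∀ a ∈ c.2, ∀ b ∈ c.2, ∀ d ∈ c.2, maj3 a b d ∈ c.2

/-- the literal which says that `x` has the value `u` -/
def lit (x : ℕ) (u : Bool) : ℕ := if u then 2 * x else 2 * x + 1

/-- the 2-clauses of a constraint: pairs of values which occur in no allowed tuple are forbidden -/
def cls (c : Con) : List (ℕ × ℕ) :=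
  if c.2.isEmpty then [(0, 0), (1, 1)] else
  (List.range c.1.length).flatMap fun i => (List.range c.1.length).flatMap fun j =>
    ([(false, false), (false, true), (true, false), (true, true)] : List (Bool × Bool)).flatMap fun u =>
      if c.2.any (fun r => decide (r.getD i false = u.1) && decide (r.getD j false = u.2)) then []
      else [(lit (c.1.getD i 0) (!u.1), lit (c.1.getD j 0) (!u.2))]

/-- fix the variables of the list `vs` one after the other; `cs` clauses, `u` literals already fixed -/
def fixAll (n : ℕ) (cs : List (ℕ × ℕ)) (u vs : List ℕ) : List ℕ :=
  vs.foldl (fun u v => if sat2 n ((2 * v, 2 * v) :: (u.map fun l => (l, l)) ++ cs) then (2 * v) :: u else (2 * v + 1) :: u) u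

/-- the solution of the instance: a list of true literals -/
def solveC (n : ℕ) (C : List Con) : Option (List ℕ) :=
  if sat2 n (C.flatMap cls) then some (fixAll n (C.flatMap cls) [] (List.range n)) else none

/-- the value of a variable in the solution -/
def val (u : List ℕ) (x : ℕ) : Bool := decide (2 * x ∈ u)

end Pool.Agent.SOB
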