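import Pool.Agent.SOB.Defs

/-! Project SOB (majority closed constraints and 2-SAT), module Fix (size 3): finding a solution of a 2-CNF.
-/

set_option autoImplicit false

namespace Pool.Agent.SOB

open Pool.Agent.SOC Pool.Agent.SOS FP

theorem fix_lit0 (s : ℕ → Bool) (v : ℕ) : litVal s (2 * v) = s v := by
  unfold litVal
  rw [if_pos (by omega), show 2 * v / 2 = v by omega]

theorem fix_lit1 (s : ℕ → Bool) (v : ℕ) : litVal s (2 * v + 1) = !(s v) := by
  unfold litVal
  rw [if_neg (by omega), show (2 * v + 1) / 2 = v by omega]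

theorem fix_congr {s s' : ℕ → Bool} {n l : ℕ} (h : ∀ v < n, s v = s' v) (hl : l < 2 * n) : litVal s l = litVal s' l := by
  unfold litVal
  rw [h (l / 2) (by omega)]

theorem fix_cons (n : ℕ) (cs : List (ℕ × ℕ)) (u : List ℕ) (v : ℕ) (vs : List ℕ) : fixAll n cs u (v :: vs) =
    fixAll n cs (if sat2 n ((2 * v, 2 * v) :: (u.map fun l => (l, l)) ++ cs) then (2 * v) :: u else (2 * v + 1) :: u) vs := rfl

/-- PROOF. Induction on vs, generalizing u. cons v vs: the clauses (l, l), l ∈ u, together with cs are satisfied by some s. If sat2 with (2v, 2v): by sat2_iff there is a solution with s v = true: apply the induction hypothesis to (2v) :: u. If not: every solution of cs and u has s v = false, in particular s: apply the induction hypothesis to (2v+1) :: u. (litVal s l = true for all l in the list.) -/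
theorem fixAll_spec {n : ℕ} {cs : List (ℕ × ℕ)} (hcs : ∀ c ∈ cs, c.1 < 2 * n ∧ c.2 < 2 * n) : ∀ (vs u : List ℕ), (∀ v ∈ vs, v < n) →
    (∀ l ∈ u, l < 2 * n) → (∃ s : ℕ → Bool, (∀ c ∈ cs, litVal s c.1 = true ∨ litVal s c.2 = true) ∧ ∀ l ∈ u, litVal s l = true) →
    ∃ s : ℕ → Bool, (∀ c ∈ cs, litVal s c.1 = true ∨ litVal s c.2 = true) ∧ (∀ l ∈ fixAll n cs u vs, litVal s l = true) ∧
      (∀ l ∈ u, l ∈ fixAll n cs u vs) ∧ ∀ v ∈ vs, 2 * v ∈ fixAll n cs u vs ∨ 2 * v + 1 ∈ fixAll n cs u vs := by
  intro vs
  induction vs with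
  | nil =>
    rintro u - - ⟨s, h1, h2⟩
    exact ⟨s, h1, h2, fun l hl => hl, fun v hv => absurd hv List.not_mem_nil⟩
  | cons v vs ih =>
    rintro u hvs hu ⟨s, h1, h2⟩
    rw [fix_cons]
    have hv : v < n := hvs v List.mem_cons_self
    have hvs' : ∀ w ∈ vs, w < n := fun w hw => hvs w (List.mem_cons_of_mem _ hw)
    have hb : ∀ c ∈ (2 * v, 2 * v) :: (u.map fun l => (l, l)) ++ cs, c.1 < 2 * n ∧ c.2 < 2 * n := by
      intro c hc
      rcases List.mem_append.1 hc with hc | hc
      · rcases List.mem_cons.1 hc with hc | hc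
        · subst hc
          exact ⟨by show 2 * v < 2 * n; omega, by show 2 * v < 2 * n; omega⟩
        · obtain ⟨l, hl, rfl⟩ := List.mem_map.1 hc
          exact ⟨hu l hl, hu l hl⟩
      · exact hcs c hc
    by_cases hsat : sat2 n ((2 * v, 2 * v) :: (u.map fun l => (l, l)) ++ cs) = true
    · rw [if_pos hsat]
      obtain ⟨s', hs'⟩ := (sat2_iff n _ hb).1 hsat
      have hu' : ∀ l ∈ 2 * v :: u, l < 2 * n := by
        intro l hl
        rcases List.mem_cons.1 hl with hl | hl
        · omega
        · exact hu l hl
      have hex : ∃ s : ℕ → Bool, (∀ c ∈ cs, litVal s c.1 = true ∨ litVal s c.2 = true) ∧ ∀ l ∈ 2 * v :: u, litVal s l = true := by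
        refine ⟨s', fun c hc => hs' c (List.mem_append.2 (Or.inr hc)), ?_⟩
        intro l hl
        rcases List.mem_cons.1 hl with hl | hl
        · subst hl
          have := hs' (2 * v, 2 * v) (List.mem_append.2 (Or.inl List.mem_cons_self))
          exact this.elim id id
        · have := hs' (l, l) (List.mem_append.2 (Or.inl (List.mem_cons_of_mem _ (List.mem_map.2 ⟨l, hl, rfl⟩))))
          exact this.elim id id
      obtain ⟨s'', g1, g2, g3, g4⟩ := ih (2 * v :: u) hvs' hu' hex
      refine ⟨s'', g1, g2, fun l hl => g3 l (List.mem_cons_of_mem _ hl), ?_⟩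
      intro w hw
      rcases List.mem_cons.1 hw with hw | hw
      · subst hw
        exact Or.inl (g3 _ List.mem_cons_self)
      · exact g4 w hw
    · rw [if_neg hsat]
      have hu' : ∀ l ∈ (2 * v + 1) :: u, l < 2 * n := by
        intro l hl
        rcases List.mem_cons.1 hl with hl | hl
        · omega
        · exact hu l hl
      have hsv : s v = false := by
        rw [Bool.eq_false_iff]
        intro h3
        apply hsat
        refine (sat2_iff n _ hb).2 ⟨s, ?_⟩
        intro c hc
        rcases List.mem_append.1 hc with hc | hc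
        · rcases List.mem_cons.1 hc with hc | hc
          · subst hc
            left
            show litVal s (2 * v) = true
            rw [fix_lit0, h3]
          · obtain ⟨l, hl, rfl⟩ := List.mem_map.1 hc
            exact Or.inl (h2 l hl)
        · exact h1 c hc
      have hex : ∃ s : ℕ → Bool, (∀ c ∈ cs, litVal s c.1 = true ∨ litVal s c.2 = true) ∧ ∀ l ∈ (2 * v + 1) :: u, litVal s l = true := by
        refine ⟨s, h1, ?_⟩
        intro l hl
        rcases List.mem_cons.1 hl with hl | hl
        · rw [hl, fix_lit1, hsv]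
          rfl
        · exact h2 l hl
      obtain ⟨s'', g1, g2, g3, g4⟩ := ih ((2 * v + 1) :: u) hvs' hu' hex
      refine ⟨s'', g1, g2, fun l hl => g3 l (List.mem_cons_of_mem _ hl), ?_⟩
      intro w hw
      rcases List.mem_cons.1 hw with hw | hw
      · subst hw
        exact Or.inr (g3 _ List.mem_cons_self)
      · exact g4 w hw

/-- PROOF. sat2_iff: there is a solution; fixAll_spec with vs = range n, u = []: a solution s with all literals of U := fixAll .. true. For v < n: s v = true iff 2 * v ∈ U (one of 2v, 2v+1 is in U, and the members of U are true: litVal s (2v) = s v, litVal s (2v+1) = !(s v)). So val U and s agree below n, and the clauses only use variables below n. -/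
theorem fix_sol {n : ℕ} {cs : List (ℕ × ℕ)} (hcs : ∀ c ∈ cs, c.1 < 2 * n ∧ c.2 < 2 * n) (h : sat2 n cs = true) :
    ∀ c ∈ cs, litVal (val (fixAll n cs [] (List.range n))) c.1 = true ∨ litVal (val (fixAll n cs [] (List.range n))) c.2 = true := by
  obtain ⟨s0, hs0⟩ := (sat2_iff n cs hcs).1 h
  obtain ⟨s, g1, g2, -, g4⟩ := fixAll_spec hcs (List.range n) [] (fun v hv => List.mem_range.1 hv)
    (fun l hl => absurd hl List.not_mem_nil) ⟨s0, hs0, fun l hl => absurd hl List.not_mem_nil⟩
  have key : ∀ v < n, s v = val (fixAll n cs [] (List.range n)) v := by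
    intro v hv
    unfold val
    rcases g4 v (List.mem_range.2 hv) with h1 | h1
    · have h2 := g2 _ h1
      rw [fix_lit0] at h2
      rw [h2, decide_eq_true h1]
    · have h2 := g2 _ h1
      rw [fix_lit1] at h2
      have h3 : s v = false := by
        cases hsv : s v with
        | false => rfl
        | true => rw [hsv] at h2; exact absurd h2 (by decide)
      have h4 : 2 * v ∉ fixAll n cs [] (List.range n) := by
        intro h5
        have h6 := g2 _ h5
        rw [fix_lit0, h3] at h6
        exact absurd h6 (by decide)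
      rw [h3, decide_eq_false h4]
  intro c hc
  obtain ⟨b1, b2⟩ := hcs c hc
  rw [← fix_congr key b1, ← fix_congr key b2]
  exact g1 c hc

end Pool.Agent.SOB
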