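import Pool.Agent.SOB.Defs

/-! Project SOB (majority closed constraints and 2-SAT), module PolS (size 3): polynomial time of the solver.
-/

set_option autoImplicit false

namespace Pool.Agent.SOB

open Pool.Agent.SOC Pool.Agent.SOS FP

variable {α : Type} [Code α]

theorem PolS_lit {x : α → ℕ} {u : α → Bool} (hx : Poly x) (hu : Poly u) : Poly (fun a => lit (x a) (u a)) := by
  unfold lit
  exact Poly.ite (Poly.pred hu) (by fun_prop) (by fun_prop)

/-- auxiliary: the clause of a pair of positions and values -/
def PolS_a (c : Con) (i j : ℕ) (u : Bool × Bool) : List (ℕ × ℕ) :=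
  if c.2.any (fun r => decide (r.getD i false = u.1) && decide (r.getD j false = u.2)) then []
      else [(lit (c.1.getD i 0) (!u.1), lit (c.1.getD j 0) (!u.2))]

theorem PolS_a_poly {c : α → Con} {i j : α → ℕ} {u : α → Bool × Bool} (hc : Poly c) (hi : Poly i) (hj : Poly j) (hu : Poly u) :
    Poly (fun a => PolS_a (c a) (i a) (j a) (u a)) := by
  unfold PolS_a
  have hany : Poly (fun p : α => (c p).2.any (fun r => decide (r.getD (i p) false = (u p).1) && decide (r.getD (j p) false = (u p).2))) := by
    refine Poly.any (f := fun p : α => (c p).2)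
      (g := fun (p : α) r => decide (r.getD (i p) false = (u p).1) && decide (r.getD (j p) false = (u p).2)) (by fun_prop) ?_
    have h2 : Poly (fun q : α × List Bool => q.2.getD (i q.1) false) :=
      Poly.getD (by fun_prop) (by fun_prop) (by fun_prop)
    have h3 : Poly (fun q : α × List Bool => q.2.getD (j q.1) false) :=
      Poly.getD (by fun_prop) (by fun_prop) (by fun_prop)
    fun_prop
  have h4 : Poly (fun p : α => (c p).1.getD (i p) 0) := Poly.getD (by fun_prop) (by fun_prop) (by fun_prop)
  have h5 : Poly (fun p : α => (c p).1.getD (j p) 0) := Poly.getD (by fun_prop) (by fun_prop) (by fun_prop)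
  have h6 := PolS_lit h4 (u := fun p => !(u p).1) (by fun_prop)
  have h7 := PolS_lit h5 (u := fun p => !(u p).2) (by fun_prop)
  exact Poly.ite (Poly.pred hany) (FP.Poly.const _) (Poly.cons (Poly.pair h6 h7) (FP.Poly.const []))

theorem PolS_b {c : α → Con} (hc : Poly c) :
    Poly (fun a => (List.range (c a).1.length).flatMap fun i => (List.range (c a).1.length).flatMap fun j =>
    ([(false, false), (false, true), (true, false), (true, true)] : List (Bool × Bool)).flatMap fun u =>
      if (c a).2.any (fun r => decide (r.getD i false = u.1) && decide (r.getD j false = u.2)) then []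
      else [(lit ((c a).1.getD i 0) (!u.1), lit ((c a).1.getD j 0) (!u.2))]) := by
  have hr : Poly (fun p => List.range (c p).1.length) :=
    Poly.range (Poly.length hc.fst) (PolyBdd.length hc.fst)
  change Poly (fun a => (List.range (c a).1.length).flatMap fun i => (List.range (c a).1.length).flatMap fun j =>
    ([(false, false), (false, true), (true, false), (true, true)] : List (Bool × Bool)).flatMap fun u => PolS_a (c a) i j u)
  refine Poly.flatMap (f := fun a => List.range (c a).1.length) (g := fun a i => (List.range (c a).1.length).flatMap fun j =>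
    ([(false, false), (false, true), (true, false), (true, true)] : List (Bool × Bool)).flatMap fun u =>
      PolS_a (c a) i j u) hr ?_
  refine Poly.flatMap (f := fun q : α × ℕ => List.range (c q.1).1.length) (g := fun (q : α × ℕ) j =>
    ([(false, false), (false, true), (true, false), (true, true)] : List (Bool × Bool)).flatMap fun u =>
      PolS_a (c q.1) q.2 j u) (hr.comp Poly.fst') ?_
  refine Poly.flatMap (f := fun _ : (α × ℕ) × ℕ => ([(false, false), (false, true), (true, false), (true, true)] : List (Bool × Bool)))
    (g := fun (q : (α × ℕ) × ℕ) u => PolS_a (c q.1.1) q.1.2 q.2 u) (FP.Poly.const _) ?_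
  exact PolS_a_poly (by fun_prop) (by fun_prop) (by fun_prop) (by fun_prop)

/-- PROOF: Poly.flatMap, Poly.ite, Poly.any, Poly.getD, Poly.range with PolyBdd.length. -/
theorem poly_cls {c : α → Con} (hc : Poly c) : Poly (fun a => cls (c a)) := by
  unfold cls
  have h1 : Poly (fun a => (c a).2.isEmpty) := by fun_prop
  exact Poly.ite (Poly.pred h1) (FP.Poly.const _) (PolS_b hc)

/-- PROOF: Poly.foldl_add (the state grows by one literal in every step, of size at most that of 2 * n + 1) or Poly.foldl_inv with the invariant: the state has at most (number of steps) members, all < 2 * n + 2. Here vs = range n (PolyBdd n). poly_sat2 for the step. -/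
theorem poly_fix {n : α → ℕ} {cs : α → List (ℕ × ℕ)} (hn : Poly n) (hb : PolyBdd n) (hcs : Poly cs) :
    Poly (fun a => fixAll (n a) (cs a) [] (List.range (n a))) := by
  unfold fixAll
  have h2n : Poly (fun a => 2 * n a + 1) := by fun_prop
  obtain ⟨Q, hQ⟩ := h2n.size_le
  refine Poly.foldl_add (f := fun a => List.range (n a)) (g := fun _ => ([] : List ℕ))
    (h := fun a u v => if sat2 (n a) ((2 * v, 2 * v) :: (u.map fun l => (l, l)) ++ cs a) then (2 * v) :: u else (2 * v + 1) :: u)
    (Poly.range hn hb) (FP.Poly.const _) ?_ (2 * Q + 1) ?_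
  · have hm : Poly (fun p : α × List ℕ × ℕ => (2 * p.2.2, 2 * p.2.2) :: (p.2.1.map fun l => (l, l)) ++ cs p.1) := by
      refine Poly.append (Poly.cons (by fun_prop) ?_) (by fun_prop)
      exact FP.Poly.map (f := fun p : α × List ℕ × ℕ => p.2.1) (g := fun _ (l : ℕ) => (l, l)) (by fun_prop) (by fun_prop)
    have hs : Poly (fun p : α × List ℕ × ℕ => sat2 (n p.1) ((2 * p.2.2, 2 * p.2.2) :: (p.2.1.map fun l => (l, l)) ++ cs p.1)) :=
      poly_sat2 (hn.comp Poly.fst') (PolyBdd.fst hb) hm
    exact Poly.ite (Poly.pred hs) (by fun_prop) (by fun_prop)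
  · intro a s v hv
    have hv' : v < n a := List.mem_range.mp hv
    have h1 : size (2 * v) ≤ size (2 * n a + 1) := size_mono (by omega)
    have h2 : size (2 * v + 1) ≤ size (2 * n a + 1) := size_mono (by omega)
    have h3 := hQ a
    have h4 : (2 * Q + 1 : Polynomial ℕ).eval (size a) = 2 * Q.eval (size a) + 1 := by simp
    rw [h4]
    split
    · rw [size_cons]; omega
    · rw [size_cons]; omega

/-- PROOF: poly_cls, poly_fix, poly_sat2, Poly.ite, Poly.some'. -/
theorem poly_solveC {n : α → ℕ} {C : α → List Con} (hn : Poly n) (hb : PolyBdd n) (hC : Poly C) :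
    Poly (fun a => solveC (n a) (C a)) := by
  unfold solveC
  have hc : Poly (fun a => (C a).flatMap cls) := by
    refine Poly.flatMap (f := C) (g := fun (_ : α) c => cls c) hC ?_
    exact poly_cls (by fun_prop)
  have hs := poly_sat2 hn hb hc
  exact Poly.ite (Poly.pred hs) (Poly.some' (poly_fix hn hb hc)) (FP.Poly.const _)

theorem poly_val {u : α → List ℕ} {x : α → ℕ} (hu : Poly u) (hx : Poly x) : Poly (fun a => val (u a) (x a)) := by
  unfold val
  exact Poly.decideMem (by fun_prop) hu

end Pool.Agent.SOB
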