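import Pool.Agent.SOB.BP
import Pool.Agent.SOB.Fix

/-! Project SOB (majority closed constraints and 2-SAT), module Sol (size 2): the solver for instances with majority closed constraints.
-/

set_option autoImplicit false

namespace Pool.Agent.SOB

open Pool.Agent.SOC Pool.Agent.SOS FP

/-- PROOF: cls_lt, fix_sol, holds_iff. -/
theorem solveC_some {n : ℕ} (hn : 0 < n) {C : List Con} (hC : ∀ c ∈ C, MajC c ∧ ∀ x ∈ c.1, x < n) {u : List ℕ} (h : solveC n C = some u) :
    ∀ c ∈ C, Holds (val u) c := by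
  have hcl : ∀ l ∈ C.flatMap cls, l.1 < 2 * n ∧ l.2 < 2 * n := by
    intro l hl
    obtain ⟨c, hc, hl⟩ := List.mem_flatMap.1 hl
    exact cls_lt hn (hC c hc).2 l hl
  unfold solveC at h
  split at h
  · rename_i hs
    have hu := (Option.some.inj h).symm
    subst hu
    intro c hc
    refine (holds_iff (hC c hc).1).2 fun l hl => ?_
    exact fix_sol hcl hs l (List.mem_flatMap.2 ⟨c, hc, hl⟩)
  · cases h

/-- PROOF: sat2_iff, holds_iff. -/
theorem solveC_none {n : ℕ} (hn : 0 < n) {C : List Con} (hC : ∀ c ∈ C, MajC c ∧ ∀ x ∈ c.1, x < n) (h : solveC n C = none) :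
    ¬ ∃ f : ℕ → Bool, ∀ c ∈ C, Holds f c := by
  have hcl : ∀ l ∈ C.flatMap cls, l.1 < 2 * n ∧ l.2 < 2 * n := by
    intro l hl
    obtain ⟨c, hc, hl⟩ := List.mem_flatMap.1 hl
    exact cls_lt hn (hC c hc).2 l hl
  rintro ⟨f, hf⟩
  unfold solveC at h
  split at h
  · cases h
  · rename_i hs
    apply hs
    refine (sat2_iff n _ hcl).2 ⟨f, ?_⟩
    intro l hl
    obtain ⟨c, hc, hl⟩ := List.mem_flatMap.1 hl
    exact (holds_iff (hC c hc).1).1 (hf c hc) l hl

end Pool.Agent.SOB
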